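import Pool.Agent.helper76.MC.Defs

/-! # Lefschetz classes and congruence classes -/

namespace Pool.Agent.helper88.MB

open Pool.Agent.helper34.DH Pool.Agent.helper76.UR Pool.Agent.helper76.MC

/-- Lefschetz classes and congruence classes -/
def IsLefCong (u : Multiset QZ) : Prop := IsLef u ∨ IsCongLef u

end Pool.Agent.helper88.MB
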