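import Pool.Agent.helper88.MB.X5511
import Pool.Agent.helper88.MB.Defs
import Pool.Agent.helper88.EF.Fin
import Pool.Agent.helper76.MC.CD

/-! # Fourfolds of every degree: Lefschetz classes and congruence classes -/

namespace Pool.Agent.helper88.MB

open Finset Pool.Agent.helper76 Pool.Agent.helper34.DH Pool.Agent.helper76.FV Pool.Agent.helper76.LP
open Pool.Agent.helper76.UR Pool.Agent.helper76.MC Pool.Agent.helper88.EF

theorem tateGen_plc : TateGen IsLefCong := by
  rintro u (h | h)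
  · exact tateGen_lef u h
  · exact h.2

theorem EP_mono {P Q : Multiset QZ → Prop} (h : ∀ u, P u → Q u) {q : Qt} (hq : q ∈ EP P) :
    q ∈ EP Q := by
  refine (AddSubgroup.closure_le (K := EP Q)).2 ?_ hq
  rintro q (⟨u, hu, rfl⟩ | rfl)
  · exact AddSubgroup.subset_closure (Or.inl ⟨u, h u hu, rfl⟩)
  · exact AddSubgroup.subset_closure (Or.inr rfl)

theorem fixP_mono {P Q : Multiset QZ → Prop} (hPQ : ∀ u, P u → Q u) {D : ℕ} [NeZero D]
    (h : FixP P D) : FixP Q D := by
  obtain ⟨e, h1, h2, h3⟩ := h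
  exact ⟨e, h1, EP_mono hPQ h2, h3⟩

theorem repMem : RepMem := by
  intro N t hN h
  obtain ⟨c, a, b, b', hc, -, h1, -⟩ := cong_of_rep_of CD_B0 isCong_sum hN h
  have h2 : (t.map Pool.Agent.helper34.DH.ρ).sum = mk (helper34.DH.emb c) - a • hh -
      b • F (1 / 3) - b' • F (2 / 3) := by
    rw [h1]; abel
  rw [h2]
  have hMG : MG ≤ MG' := le_sup_left
  have hhm : hh ∈ MG' := hMG (AddSubgroup.subset_closure (Or.inr rfl))
  have hcm : mk (helper34.DH.emb c) ∈ MG' :=
    hMG (AddSubgroup.subset_closure (Or.inl ⟨c, hc, rfl⟩))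
  have h3 : F (1 / 3) ∈ MG' :=
    (le_sup_right : AddSubgroup.zmultiples (F (1 / 3)) ≤ MG') (AddSubgroup.mem_zmultiples _)
  have h4 : F (2 / 3) ∈ MG' := by
    have : F (2 / 3) = - F (1 / 3) := by
      rw [← F_neg]
      exact F_congr ⟨1, by norm_num⟩
    rw [this]
    exact MG'.neg_mem h3
  exact MG'.sub_mem (MG'.sub_mem (MG'.sub_mem hcm (MG'.nsmul_mem hhm _)) (MG'.nsmul_mem h3 _))
    (MG'.nsmul_mem h4 _)

/-- Tate functions whose class is a congruence class -/
theorem plc_mem (m : ℕ) [NeZero m] (c : ZMod m → ℤ) (hT : TateF (anti c))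
    (h : LP.cls m c ∈ MG') : LP.cls m c ∈ EP IsLefCong :=
  EP_mono (fun _ hu => Or.inr hu) (final_mem m c hT h)

theorem fix55 : FixP IsLefCong 55 := fix5511 repMem IsLefCong (fun m _ c hT h => plc_mem m c hT h)

/-- products of Fermat varieties with at most six coordinates, every degree -/
theorem fourfold_plc (m : ℕ) (hm : 0 < m) (d : ℕ) (hd : d ≤ 3)
    {s : ℕ} (π : Fin (2 * d) → Fin s) (a : Fin (2 * d) → ZMod m) :
    IsTateChar m π a ↔ (∀ i, a i ≠ 0) ∧ BlockZero π a ∧ EquivMod IsLefCong (pts a) 0 :=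
  fourfold_gen tateGen_plc (fun D _ hD => fixP_mono (fun _ hu => Or.inl hu) (fixP_of_mem D hD))
    m hm (fun _ _ => fix55) d hd π a

end Pool.Agent.helper88.MB
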