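import Pool.Agent.helper34.MD.T4
import Pool.Agent.helper88.KG.Ma

/-! # The induction with any number of primes, and the theorem for all dimensions for an
arbitrary set of generators -/

namespace Pool.Agent.helper88.MB

open Finset Pool.Agent.helper76 Pool.Agent.helper34.DH Pool.Agent.helper76.FV Pool.Agent.helper76.LP
open Pool.Agent.helper76.UR Pool.Agent.helper88.EF Pool.Agent.helper88.KG

/-- the levels in which the obstruction classes can be removed -/
def GoodQ (P : Multiset QZ → Prop) (m : ℕ) : Prop :=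
  ∀ (D : ℕ) [NeZero D], D ∣ m → D % 4 ≠ 2 →
    ((∀ p, p.Prime → Odd p → ¬ p ^ 2 ∣ D) ∧ ¬ 8 ∣ D) →
    Even D.primeFactors.card → D.primeFactors.card ≠ 0 → FixP P D

/-- one stage of the induction -/
theorem stageQ {P : Multiset QZ → Prop} (m : ℕ) [NeZero m] (hm : GoodQ P m) (D : ℕ) [NeZero D]
    (hD : D ∣ m) (c : ZMod m → ℤ) (hmax : ∀ x, anti c x ≠ 0 → addOrderOf x ≤ D)
    (hT : TateF (anti c)) : OutP P m D c := by
  have hodd : ∀ x : (ZMod D)ˣ, anti c (LP.emb D m ((-x : (ZMod D)ˣ) : ZMod D)) =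
      - anti c (LP.emb D m (x : ZMod D)) := by
    intro x
    rw [Units.val_neg, emb_neg hD, anti_odd]
  by_cases hD4 : D % 4 = 2
  · exact outP_of_ndec m D hD c hmax hT (ndec_of_dec D _ (dec_two D hD4 _ hodd))
  have hmd : ∀ L : List ℕ, L.Nodup → L.toFinset = D.primeFactors →
      MDv (Gam D) L (fun z => anti c (LP.emb D m (z : ZMod D))) :=
    fun L _ hL => mdiff_anti m D hD c hT hmax L hL
  set L := D.primeFactors.toList with hLdef
  have hLn : L.Nodup := Finset.nodup_toList _
  have hLt : L.toFinset = D.primeFactors := Finset.toList_toFinset _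
  by_cases h1 : (-1 : (ZMod D)ˣ) ∈ Pl (Gam D) L
  · have hs := sqf_of_neg_one D L hLt h1
    by_cases h0 : D.primeFactors.card = 0
    · exact outP_of_ndec m D hD c hmax hT
        (ndec_one D (by omega) L hLn hLt h1 _ hodd (hmd L hLn hLt))
    rcases Nat.even_or_odd D.primeFactors.card with h2 | h2
    · exact outP_of_fix m D hD c hmax hT (hm D hD hD4 hs h2 h0)
    · exact outP_of_ndec m D hD c hmax hT
        (Pool.Agent.helper34.MD.ndec_odd D hD4 hs h2 _ hodd hmd)
  · exact outP_of_ndec m D hD c hmax hT (ndec_half D L hLn hLt h1 _ hodd (hmd L hLn hLt))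

/-- the main induction -/
theorem main_inductionQ {P : Multiset QZ → Prop} (m : ℕ) [NeZero m] (hm : GoodQ P m) :
    ∀ (D : ℕ) (c : ZMod m → ℤ), TateF (anti c) → (∀ x, anti c x ≠ 0 → addOrderOf x ≤ D) →
      LP.cls m c ∈ EP P := by
  intro D
  induction D with
  | zero =>
    intro c _ h
    obtain ⟨j, hj⟩ := cls_even m c (by
      intro x
      by_contra hx
      have := h x hx
      have h2 := addOrderOf_pos x
      omega)
    rw [hj]
    exact (EP P).zsmul_mem hh_mem' j
  | succ D ih =>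
    intro c hT h
    by_cases hD : (D + 1) ∣ m
    · have : NeZero (D + 1) := ⟨Nat.succ_ne_zero D⟩
      obtain ⟨c', h1, h2, h3⟩ := stageQ m hm (D + 1) hD c h hT
      have h4 := ih c' h1 (fun x hx => Nat.lt_succ_iff.1 (h2 x hx))
      have h5 := (EP P).add_mem h3 h4
      rwa [sub_add_cancel] at h5
    · apply ih c hT
      intro x hx
      have h1 := h x hx
      have h2 : addOrderOf x ≠ D + 1 := fun h3 => hD (h3 ▸ addOrderOf_dvd' x)
      omega

/-- all dimensions, for an arbitrary set of generators -/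
theorem tate_all_gen {P : Multiset QZ → Prop} (hP : TateGen P) (d m : ℕ) (hm : 0 < m)
    (h3 : ∀ q : ℕ, q.Prime → 2 * d + 1 < q → 7 < q → 3 * q ∣ m →
      (∀ _ : NeZero (3 * q), FixP P (3 * q)) ∨ 8 * d + 1 < q ∨ (Odd m ∧ 4 * d + 1 < q))
    (h4 : ∀ q : ℕ, q.Prime → 2 * d + 1 < q → 7 < q → 4 * q ∣ m →
      (∀ _ : NeZero (4 * q), FixP P (4 * q)) ∨ 4 * d + 1 < q)
    (h5 : ∀ q : ℕ, q.Prime → 2 * d + 1 < q → 7 < q → 5 * q ∣ m →
      (∀ _ : NeZero (5 * q), FixP P (5 * q)) ∨ 4 * d + 1 < q ∨ Odd m)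
    (hG : GoodQ P (smo m (max (2 * d + 1) 7)))
    {s : ℕ} (π : Fin (2 * d) → Fin s) (a : Fin (2 * d) → ZMod m) :
    IsTateChar m π a ↔ (∀ i, a i ≠ 0) ∧ BlockZero π a ∧ EquivMod P (pts a) 0 := by
  have : NeZero m := ⟨hm.ne'⟩
  rw [isTateChar_iff m hm]
  constructor
  swap
  · rintro ⟨h0, hb, hs⟩
    exact ⟨hb, tateM_of_equivMod hP m hm _ a h0 hs⟩
  rintro ⟨hb, hT⟩
  refine ⟨hT.1, hb, equivMod_of_cls hP m d a hT.1 ?_⟩
  have hn : n60 (anti (cnt a)) ≤ 4 * d := by
    have h1 : ∑ x, |anti (cnt a) x| ≤ ((2 * (2 * d) : ℕ) : ℤ) := by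
      have h2 : ∀ x, |anti (cnt a) x| ≤ cnt a x + cnt a (-x) := by
        intro x
        unfold anti
        have h3 : ∀ y, 0 ≤ cnt a y := fun y => by
          unfold cnt
          exact Finset.sum_nonneg fun i _ => by split_ifs <;> norm_num
        have := h3 x
        have := h3 (-x)
        rw [abs_le]
        constructor <;> linarith
      refine (Finset.sum_le_sum fun x _ => h2 x).trans ?_
      have h5 : ∑ x : ZMod m, cnt a (-x) = ∑ x, cnt a x :=
        Equiv.sum_comp (Equiv.neg (ZMod m)) (cnt a)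
      rw [Finset.sum_add_distrib, h5]
      have h4 : ∑ x, cnt a x = (2 * d : ℕ) := by
        have := sum_cnt_smul a (fun _ => (1 : ℤ))
        simpa using this
      rw [h4]
      push_cast
      linarith
    have h2 : n60 (anti (cnt a)) ≤ ∑ x, |anti (cnt a) x| :=
      Finset.sum_le_sum fun x _ => by
        split_ifs
        · exact abs_nonneg _
        · exact le_rfl
    refine h2.trans (h1.trans ?_)
    push_cast
    linarith
  have hmax : ∀ q : ℕ, max (2 * d + 1) 7 < q → 2 * d + 1 < q ∧ 7 < q := fun q h => by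
    rw [max_lt_iff] at h
    exact h
  obtain ⟨c1, hT1, hp1, h1⟩ := big_primesK (EP P) hh_mem' m (4 * d) (max (2 * d + 1) 7)
    (by
      intro q hq hq1
      obtain ⟨hq1, h7⟩ := hmax q hq1
      refine ⟨?_, ?_⟩
      · by_contra hc
        push Not at hc
        interval_cases q
        all_goals exact absurd hq (by norm_num)
      · have : (2 * d + 1 : ℤ) < q := by exact_mod_cast hq1
        linarith)
    (by
      intro q hq hq1 hqm
      obtain ⟨hq1, h7⟩ := hmax q hq1
      rcases h3 q hq hq1 h7 hqm with h | h | h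
      · exact Or.inl h
      · right; left
        have : (8 * d + 1 : ℤ) < q := by exact_mod_cast h
        linarith
      · right; right
        have : (4 * d + 1 : ℤ) < q := by exact_mod_cast h.2
        exact ⟨Nat.not_even_iff_odd.2 h.1, by linarith⟩)
    (by
      intro q hq hq1 hqm
      obtain ⟨hq1, h7⟩ := hmax q hq1
      rcases h4 q hq hq1 h7 hqm with h | h
      · exact Or.inl h
      · right
        have : (4 * d + 1 : ℤ) < q := by exact_mod_cast h
        linarith)
    (by
      intro q hq hq1 hqm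
      obtain ⟨hq1, h7⟩ := hmax q hq1
      rcases h5 q hq hq1 h7 hqm with h | h | h
      · exact Or.inl h
      · right; left
        have : (4 * d + 1 : ℤ) < q := by exact_mod_cast h
        linarith
      · exact Or.inr (Or.inr (Nat.not_even_iff_odd.2 h)))
    m (cnt a) (tateF_anti m a hT) hn
    (fun x _ p _ hpx => (Nat.le_of_dvd (addOrderOf_pos x) hpx).trans
      (Nat.le_of_dvd hm (addOrderOf_dvd' x)))
  -- descend
  set m' := smo m (max (2 * d + 1) 7) with hm'
  have hm'd : m' ∣ m := smo_dvd m _ hm.ne'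
  have : NeZero m' := ⟨fun h => hm.ne' (Nat.eq_zero_of_zero_dvd (h ▸ hm'd))⟩
  obtain ⟨c2, hT2, h2a, j, h2b⟩ := descend m m' hm'd c1 hT1 (by
    intro x hx
    refine dvd_smo m _ _ hm.ne' (addOrderOf_dvd' x) fun p hpp hpx => ?_
    rcases hp1 x hx p hpp hpx with h | h
    · exact h
    · exact h.trans (le_max_right _ _))
  have h3 := main_inductionQ m' hG m' c2 hT2
    (fun x _ => Nat.le_of_dvd (Nat.pos_of_ne_zero (NeZero.ne m')) (addOrderOf_dvd' x))
  have h4 : LP.cls m c1 ∈ EP P := by
    rw [h2b]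
    exact (EP P).add_mem h3 ((EP P).zsmul_mem hh_mem' j)
  have h5 := (EP P).add_mem h1 h4
  rwa [sub_add_cancel] at h5

end Pool.Agent.helper88.MB
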