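import Pool.Agent.helper88.MB.B
import Pool.Agent.helper88.MB.Ind
import Pool.Agent.helper76.MC.I

/-! # All dimensions: Lefschetz classes and congruence classes -/

namespace Pool.Agent.helper88.MB

open Finset Pool.Agent.helper76 Pool.Agent.helper34.DH Pool.Agent.helper76.FV Pool.Agent.helper76.LP
open Pool.Agent.helper76.UR Pool.Agent.helper76.MC Pool.Agent.helper88.EF Pool.Agent.helper88.KG

/-- `x = 4` or `x ≡ 3 mod 4` -/
def NT (x : ℕ) : Prop := x = 4 ∨ x % 4 = 3

lemma three_of_pf (D : ℕ) [NeZero D] (h3 : ∀ p ∈ D.primeFactors, p = 2 ∨ p % 4 = 3) : Three D :=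
  fun p hp hpD => h3 p (Nat.mem_primeFactors.2 ⟨hp, hpD, NeZero.ne D⟩)

theorem fix_three (D : ℕ) [NeZero D] (hD : D % 4 ≠ 2)
    (h : (∀ p, p.Prime → Odd p → ¬ p ^ 2 ∣ D) ∧ ¬ 8 ∣ D)
    (h3 : ∀ p ∈ D.primeFactors, p = 2 ∨ p % 4 = 3)
    (he : Even D.primeFactors.card) (h0 : D.primeFactors.card ≠ 0) : FixP IsLefCong D :=
  Pool.Agent.helper34.MD.fixP_three IsLefCong D hD h h3 he h0
    (fun e hT => plc_mem D e hT (main_mod' D (three_of_pf D h3) e (pre_tate D e hT)))

/-- pairs of elements `4` or `3` modulo `4` -/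
theorem fix_NT (x y : ℕ) (hx : x = 4 ∨ x.Prime ∧ Odd x) (hy : y = 4 ∨ y.Prime ∧ Odd y)
    (hxy : x ≠ y) (h1 : NT x) (h2 : NT y) [NeZero (x * y)] : FixP IsLefCong (x * y) := by
  have key : ∀ z : ℕ, (z = 4 ∨ z.Prime ∧ Odd z) → z.primeFactors = {if z = 4 then 2 else z} := by
    rintro z (rfl | h)
    · rw [if_pos rfl]
      decide +kernel
    · rw [if_neg (by rintro rfl; exact absurd h.1 (by norm_num)), h.1.primeFactors]
  have hx0 : x ≠ 0 := by rintro rfl; rcases hx with h | h; · omega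
                         exact absurd h.1 (by norm_num)
  have hy0 : y ≠ 0 := by rintro rfl; rcases hy with h | h; · omega
                         exact absurd h.1 (by norm_num)
  have hinj : (if x = 4 then 2 else x) ≠ (if y = 4 then 2 else y) := by
    intro h
    split_ifs at h with h3 h4 h4
    · omega
    · rcases hy with h5 | h5
      · omega
      · rw [← h] at h5
        exact absurd h5.2 (by decide)
    · rcases hx with h5 | h5
      · omega
      · rw [h] at h5
        exact absurd h5.2 (by decide)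
    · exact hxy h
  have hpf : (x * y).primeFactors = {if x = 4 then 2 else x, if y = 4 then 2 else y} := by
    rw [Nat.primeFactors_mul hx0 hy0, key x hx, key y hy]
    rfl
  have hcop : Nat.Coprime x y := by
    rw [← Nat.disjoint_primeFactors hx0 hy0, key x hx, key y hy]
    rw [Finset.disjoint_singleton]
    exact hinj
  have hcard : (x * y).primeFactors.card = 2 := by
    rw [hpf, Finset.card_pair hinj]
  have hsq : ∀ z : ℕ, (z = 4 ∨ z.Prime ∧ Odd z) → z = 4 ∨ z.Prime ∧ z % 2 = 1 := by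
    rintro z (h | h)
    · exact Or.inl h
    · exact Or.inr ⟨h.1, Nat.odd_iff.1 h.2⟩
  -- shape
  have hodd4 : (x * y) % 4 ≠ 2 := by
    rcases hsq x hx with rfl | ⟨-, h3⟩
    · omega
    · rcases hsq y hy with rfl | ⟨-, h4⟩
      · omega
      · intro h5
        have h6 : (x * y) % 2 = 0 := by omega
        rw [Nat.mul_mod, h3, h4] at h6
        norm_num at h6
  have hnosq : ∀ z : ℕ, (z = 4 ∨ z.Prime ∧ Odd z) → ∀ p : ℕ, p.Prime → Odd p → ¬ p ^ 2 ∣ z := by
    rintro z (rfl | h) p hp hpo hd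
    · have h5 : p ∣ 4 := (dvd_pow_self p (by norm_num)).trans hd
      have h6 : p ∣ 2 ^ 2 := by simpa using h5
      have h7 := (Nat.prime_dvd_prime_iff_eq hp Nat.prime_two).1 (hp.dvd_of_dvd_pow h6)
      rw [h7] at hpo
      exact absurd hpo (by decide)
    · have h5 : p ∣ z := (dvd_pow_self p (by norm_num)).trans hd
      have h6 := (Nat.prime_dvd_prime_iff_eq hp h.1).1 h5
      rw [h6] at hd
      have := Nat.le_of_dvd h.1.pos hd
      have h7 := h.1.two_le
      nlinarith
  have hsqf : (∀ p, p.Prime → Odd p → ¬ p ^ 2 ∣ x * y) ∧ ¬ 8 ∣ x * y := by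
    constructor
    · intro p hp hpo hd
      by_cases hpx : p ∣ x
      · have hpy : Nat.Coprime (p ^ 2) y := by
          apply Nat.Coprime.pow_left
          exact Nat.Coprime.coprime_dvd_left hpx hcop
        exact hnosq x hx p hp hpo (hpy.dvd_of_dvd_mul_right hd)
      · have hpx' : Nat.Coprime (p ^ 2) x :=
          Nat.Coprime.pow_left _ ((Nat.Prime.coprime_iff_not_dvd hp).2 hpx)
        exact hnosq y hy p hp hpo (hpx'.dvd_of_dvd_mul_left hd)
    · intro hd
      rcases hx with rfl | hx'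
      · rcases hy with rfl | hy'
        · exact hxy rfl
        · have h3 : 8 ∣ 4 := by
            have : Nat.Coprime 8 y := by
              have h4 : Nat.Coprime 2 y := (Nat.coprime_two_left).2 hy'.2
              exact Nat.Coprime.pow_left 3 h4
            exact this.dvd_of_dvd_mul_right hd
          omega
      · have h4 : Nat.Coprime 8 x :=
          Nat.Coprime.pow_left 3 ((Nat.coprime_two_left).2 hx'.2)
        have h5 : 8 ∣ y := h4.dvd_of_dvd_mul_left hd
        rcases hy with rfl | hy'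
        · omega
        · have : Nat.Coprime 8 y := Nat.Coprime.pow_left 3 ((Nat.coprime_two_left).2 hy'.2)
          have := Nat.Coprime.eq_one_of_dvd this h5
          omega
  apply fix_three (x * y) hodd4 hsqf
  · rw [hpf]
    intro p hp
    simp only [Finset.mem_insert, Finset.mem_singleton] at hp
    rcases hp with rfl | rfl
    · split_ifs with h3
      · exact Or.inl rfl
      · rcases h1 with h | h
        · exact absurd h h3
        · exact Or.inr h
    · split_ifs with h3
      · exact Or.inl rfl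
      · rcases h2 with h | h
        · exact absurd h h3
        · exact Or.inr h
  · rw [hcard]; decide
  · rw [hcard]; decide

/-- the levels for which all pairs can be removed and there are no quadruples with elements
`1` modulo `4` -/
theorem goodQ_of (m : ℕ) (Q : ℕ → ℕ → Prop)
    (hQ : ∀ x y, Q x y → ∀ _ : NeZero (x * y), Lam m x → Lam m y → x < y →
      FixP IsLefCong (x * y))
    (h : ∀ x y, Lam m x → Lam m y → x < y → Q x y)
    (h4 : ∀ S : Finset ℕ, S.card = 4 → (∀ x ∈ S, Lam m x) → ∀ x ∈ S, NT x) :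
    GoodQ IsLefCong m := by
  intro D _ hD hD4 hs he h0
  by_cases hall : ∀ p ∈ D.primeFactors, p = 2 ∨ p % 4 = 3
  · exact fix_three D hD4 hs hall he h0
  push Not at hall
  obtain ⟨p0, hp0, hp02, hp03⟩ := hall
  have hprod := (eq_prod_lam D hD4 hs).1
  have hcard : D.primeFactors.card = 2 := by
    by_contra hc
    have h5 : 4 ≤ D.primeFactors.card := by
      rcases he with ⟨k, hk⟩
      omega
    obtain ⟨S, hS1, hS2, hS3⟩ := Finset.exists_subsuperset_card_eq
      (Finset.singleton_subset_iff.2 hp0) (show ({p0} : Finset ℕ).card ≤ 4 by simp) h5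
    have h6 := h4 (S.image lp) (by
      rw [Finset.card_image_of_injOn, hS3]
      intro a ha b hb hab
      exact lp_inj (Nat.prime_of_mem_primeFactors (hS2 ha))
        (Nat.prime_of_mem_primeFactors (hS2 hb)) hab) (by
      intro x hx
      obtain ⟨p, hp, rfl⟩ := Finset.mem_image.1 hx
      exact lam_lp m D p hD hD4 (hS2 hp)) (lp p0)
      (Finset.mem_image_of_mem lp (hS1 (Finset.mem_singleton_self _)))
    have h7 : lp p0 = p0 := by
      unfold LP.lp
      rw [if_neg hp02]
    rw [h7] at h6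
    rcases h6 with h6 | h6
    · exact absurd (h6 ▸ Nat.prime_of_mem_primeFactors hp0) (by norm_num)
    · exact hp03 h6
  obtain ⟨p, q, hpq, hpqD⟩ := Finset.card_eq_two.1 hcard
  have hp : p ∈ D.primeFactors := by rw [hpqD]; simp
  have hq : q ∈ D.primeFactors := by rw [hpqD]; simp
  have hDpq : D = lp p * lp q := by
    rw [hpqD, Finset.prod_pair hpq] at hprod
    exact hprod
  have h1 := lam_lp m D p hD hD4 hp
  have h2 := lam_lp m D q hD hD4 hq
  have h3 : lp p ≠ lp q := fun h => hpq (lp_inj (Nat.prime_of_mem_primeFactors hp)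
          (Nat.prime_of_mem_primeFactors hq) h)
  rcases lt_or_gt_of_ne h3 with h3 | h3
  · have : NeZero (lp p * lp q) := ⟨hDpq ▸ NeZero.ne D⟩
    have h5 := hQ _ _ (h _ _ h1 h2 h3) this h1 h2 h3
    subst hDpq
    exact h5
  · rw [mul_comm] at hDpq
    have : NeZero (lp q * lp p) := ⟨hDpq ▸ NeZero.ne D⟩
    have h5 := hQ _ _ (h _ _ h2 h1 h3) this h2 h1 h3
    subst hDpq
    exact h5

/-- the pairs which can be removed -/
def PQ (x y : ℕ) : Prop := x * y ∈ GP ∨ x * y = 55 ∨ (NT x ∧ NT y)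

theorem fix_PQ (m x y : ℕ) (h : PQ x y) (_ : NeZero (x * y)) (hx : Lam m x) (hy : Lam m y)
    (hxy : x < y) : FixP IsLefCong (x * y) := by
  rcases h with h | h | h
  · exact fixP_mono (fun _ hu => Or.inl hu) (fixP_of_mem _ h)
  · have key : ∀ n : ℕ, n = 55 → ∀ _ : NeZero n, FixP IsLefCong n := by
      rintro n rfl _
      exact fix55
    exact key _ h _
  · exact fix_NT x y hx.2 hy.2 hxy.ne h.1 h.2

/-- all dimensions -/
theorem tate_all_C (d m : ℕ) (hm : 0 < m)
    (h : ∀ x y, Lam m x → Lam m y → x < y → PQ x y ∨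
      (2 * d + 1 < y ∧ (x = 3 → 8 * d + 1 < y ∨ (Odd m ∧ 4 * d + 1 < y)) ∧
        (x = 4 → 4 * d + 1 < y) ∧ (x = 5 → 4 * d + 1 < y ∨ Odd m)))
    (h4 : ∀ S : Finset ℕ, S.card = 4 → (∀ x ∈ S, Lam m x ∧ x ≤ max (2 * d + 1) 7) →
      ∀ x ∈ S, NT x)
    {s : ℕ} (π : Fin (2 * d) → Fin s) (a : Fin (2 * d) → ZMod m) :
    IsTateChar m π a ↔ (∀ i, a i ≠ 0) ∧ BlockZero π a ∧ EquivMod IsLefCong (pts a) 0 := by
  have hlamP : ∀ q : ℕ, q.Prime → 3 ≤ q → q ∣ m → Lam m q := fun q hq h3 hqm =>
    ⟨hqm, Or.inr ⟨hq, hq.odd_of_ne_two (by omega)⟩⟩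
  have hL3 : ∀ q : ℕ, 3 * q ∣ m → Lam m 3 := fun q hqm =>
    ⟨(Dvd.intro q rfl).trans hqm, Or.inr ⟨by norm_num, by decide⟩⟩
  have hL4 : ∀ q : ℕ, 4 * q ∣ m → Lam m 4 := fun q hqm =>
    ⟨(Dvd.intro q rfl).trans hqm, Or.inl rfl⟩
  have hL5 : ∀ q : ℕ, 5 * q ∣ m → Lam m 5 := fun q hqm =>
    ⟨(Dvd.intro q rfl).trans hqm, Or.inr ⟨by norm_num, by decide⟩⟩
  refine tate_all_gen tateGen_plc d m hm ?_ ?_ ?_ ?_ π a
  · intro q hq hq1 h7 hqm
    have hLq := hlamP q hq (by omega) ((Dvd.intro_left 3 rfl).trans hqm)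
    rcases h 3 q (hL3 q hqm) hLq (by omega) with h | h
    · exact Or.inl fun hN => fix_PQ m 3 q h hN (hL3 q hqm) hLq (by omega)
    · rcases h.2.1 rfl with h | h
      · exact Or.inr (Or.inl h)
      · exact Or.inr (Or.inr h)
  · intro q hq hq1 h7 hqm
    have hLq := hlamP q hq (by omega) ((Dvd.intro_left 4 rfl).trans hqm)
    rcases h 4 q (hL4 q hqm) hLq (by omega) with h | h
    · exact Or.inl fun hN => fix_PQ m 4 q h hN (hL4 q hqm) hLq (by omega)
    · exact Or.inr (h.2.2.1 rfl)
  · intro q hq hq1 h7 hqm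
    have hLq := hlamP q hq (by omega) ((Dvd.intro_left 5 rfl).trans hqm)
    rcases h 5 q (hL5 q hqm) hLq (by omega) with h | h
    · exact Or.inl fun hN => fix_PQ m 5 q h hN (hL5 q hqm) hLq (by omega)
    · exact Or.inr (h.2.2.2 rfl)
  · set m' := smo m (max (2 * d + 1) 7) with hm'
    have hm'd : m' ∣ m := smo_dvd m _ hm.ne'
    have hLm : ∀ x, Lam m' x → Lam m x ∧ x ≤ max (2 * d + 1) 7 := by
      intro x hx
      refine ⟨⟨hx.1.trans hm'd, hx.2⟩, ?_⟩
      rcases hx.2 with h5 | h5
      · rw [h5]; exact le_trans (by norm_num) (le_max_right _ _)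
      · exact prime_smo m (max (2 * d + 1) 7) x h5.1 hx.1
    apply goodQ_of m' PQ (fix_PQ m')
    · intro x y hx hy hxy
      rcases h x y (hLm x hx).1 (hLm y hy).1 hxy with h5 | h5
      · exact h5
      · left
        refine MA_small_pair x y hx.2 hy.2 hxy ?_
        rcases le_max_iff.1 (hLm y hy).2 with h6 | h6
        · omega
        · exact h6
    · intro S hS hS2
      exact h4 S hS fun x hx => hLm x (hS2 x hx)

end Pool.Agent.helper88.MB
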