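import Pool.Agent.helper54.MC.V
import Pool.Agent.helper13.MC.K
import Pool.Agent.helper25.MC.B1
import Pool.Agent.helper76.UR.Fin

/-! # The class of the pair `5, 11` -/

namespace Pool.Agent.helper88.MB

open Finset Pool.Agent.helper76 Pool.Agent.helper34.DH Pool.Agent.helper76.FV Pool.Agent.helper76.LP
open Pool.Agent.helper76.UR Pool.Agent.helper76.MC

/-- the exponents of the sum of representations -/
def RepMem : Prop := ∀ (N : ℕ) (t : Multiset QZ), 0 < N → CongRep N 1 t →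
  (t.map Pool.Agent.helper34.DH.ρ).sum ∈ MG'

/-- `F (1/4 + y) - F (1/4 - y) = F (4 y) - F (2 y)` -/
theorem quarter (y : ℚ) : F (1 / 4 + y) = F (1 / 4 - y) + F (4 * y) - F (2 * y) := by
  have h1 := dist_two (1 / 4 + y)
  have h2 := dist_two (2 * y)
  have h3 : F (1 / 4 + y + 1 / 2) = - F (1 / 4 - y) := by
    rw [← F_neg]
    exact F_congr ⟨1, by push_cast; ring⟩
  have h4 : (2 * (1 / 4 + y) : ℚ) = 2 * y + 1 / 2 := by ring
  have h5 : (2 * (2 * y) : ℚ) = 4 * y := by ring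
  rw [h3, h4] at h1
  rw [h5] at h2
  have h6 : hh + hh = 0 := by rw [← two_zsmul, hh_two]
  have h7 : F (2 * y + 1 / 2) = F (4 * y) + hh - F (2 * y) := by rw [← h2]; abel
  rw [h7] at h1
  have h8 : F (1 / 4 + y) = (F (4 * y) + hh - F (2 * y) + hh) + F (1 / 4 - y) := by
    rw [← h1]; abel
  rw [h8]
  have h9 : F (4 * y) + hh - F (2 * y) + hh + F (1 / 4 - y) =
      F (1 / 4 - y) + F (4 * y) - F (2 * y) + (hh + hh) := by abel
  rw [h9, h6, add_zero]

theorem hg (a w b u v : ℚ) (h0 : ∃ n : ℤ, w = 9 / 20 - a + n)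
    (h1 : 1 / 20 + a = 1 / 4 + b) (h2 : 9 / 20 - a = 1 / 4 - b)
    (h3 : ∃ n : ℤ, 4 * b = u + n) (h4 : ∃ n : ℤ, 2 * b = - v + n) :
    F (1 / 20 + a) = F w + F u + F v := by
  rw [F_congr h0, h1, h2, quarter, F_congr h3, F_congr h4, F_neg]
  abel

/-- the sum over the twelve points -/
theorem twelve : (F (9 / 20) + F (9 / 20 + 1 / 11) + F (9 / 20 + 3 / 11) + F (9 / 20 + 4 / 11) +
      F (9 / 20 + 5 / 11) + F (9 / 20 + 9 / 11)) +
    (F (1 / 20) + F (1 / 20 + 1 / 11) + F (1 / 20 + 3 / 11) + F (1 / 20 + 4 / 11) +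
      F (1 / 20 + 5 / 11) + F (1 / 20 + 9 / 11)) =
    F (31 / 55) + F (16 / 55) + F (36 / 55) + F (1 / 55) + F (26 / 55) +
    (F (12 / 55) + F (47 / 55) + F (37 / 55) + F (27 / 55) + F (42 / 55)) := by
  have hd := dist_odd 11 (by norm_num) (by decide) (9 / 20)
  have h99 : F ((11 : ℕ) * (9 / 20) : ℚ) = - F (1 / 20) := by
    rw [← F_neg]
    exact F_congr ⟨5, by norm_num⟩
  rw [h99] at hd
  simp only [Finset.sum_range_succ, Finset.sum_range_zero, zero_add] at hd
  norm_num at hd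
  rw [hg (1 / 11) (9 / 20 + 10 / 11) (-6 / 55) (31 / 55) (12 / 55) ⟨1, by norm_num⟩ (by norm_num)
      (by norm_num) ⟨-1, by norm_num⟩ ⟨0, by norm_num⟩,
    hg (3 / 11) (9 / 20 + 8 / 11) (4 / 55) (16 / 55) (47 / 55) ⟨1, by norm_num⟩ (by norm_num)
      (by norm_num) ⟨0, by norm_num⟩ ⟨1, by norm_num⟩,
    hg (4 / 11) (9 / 20 + 7 / 11) (9 / 55) (36 / 55) (37 / 55) ⟨1, by norm_num⟩ (by norm_num)
      (by norm_num) ⟨0, by norm_num⟩ ⟨1, by norm_num⟩,
    hg (5 / 11) (9 / 20 + 6 / 11) (14 / 55) (1 / 55) (27 / 55) ⟨1, by norm_num⟩ (by norm_num)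
      (by norm_num) ⟨1, by norm_num⟩ ⟨1, by norm_num⟩,
    hg (9 / 11) (9 / 20 + 2 / 11) (34 / 55) (26 / 55) (42 / 55) ⟨1, by norm_num⟩ (by norm_num)
      (by norm_num) ⟨2, by norm_num⟩ ⟨2, by norm_num⟩]
  norm_num
  have h5 : F (1 / 20) = - (- F (1 / 20)) := by rw [neg_neg]
  rw [h5, ← hd]
  abel


lemma pt_val (m : ℕ) [NeZero m] (x : ZMod m) : pt x = (((x.val : ℚ) / m : ℚ) : QZ) := rfl

lemma mset5 : mset (vp 5 5) = {((0 : ℚ) : QZ), ((1 / 5 : ℚ) : QZ), ((4 / 5 : ℚ) : QZ)} := by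
  have h : ∀ x : ZMod 5, vp 5 5 x = if x = 0 ∨ x = 1 ∨ x = 4 then 1 else 0 := by decide +kernel
  unfold mset
  simp_rw [h, pt_val]
  have h2 : (Finset.univ : Finset (ZMod 5)) = {0, 1, 2, 3, 4} := by decide
  rw [h2]
  rw [Finset.sum_insert (by decide), Finset.sum_insert (by decide), Finset.sum_insert (by decide),
    Finset.sum_insert (by decide), Finset.sum_singleton]
  have v0 : (0 : ZMod 5).val = 0 := by decide
  have v1 : (1 : ZMod 5).val = 1 := by decide
  have v4 : (4 : ZMod 5).val = 4 := by decide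
  rw [if_pos (by decide), if_pos (by decide), if_neg (by decide), if_neg (by decide),
    if_pos (by decide), v0, v1, v4]
  simp only [one_nsmul, zero_nsmul, zero_add, Multiset.singleton_add, Nat.cast_zero, Nat.cast_one,
    Nat.cast_ofNat, zero_div]
  rfl

lemma mset11 : mset (vp 11 11) = {((0 : ℚ) : QZ), ((1 / 11 : ℚ) : QZ), ((3 / 11 : ℚ) : QZ),
    ((4 / 11 : ℚ) : QZ), ((5 / 11 : ℚ) : QZ), ((9 / 11 : ℚ) : QZ)} := by
  have h : ∀ x : ZMod 11, vp 11 11 x =
      if x = 0 ∨ x = 1 ∨ x = 3 ∨ x = 4 ∨ x = 5 ∨ x = 9 then 1 else 0 := by decide +kernel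
  unfold mset
  simp_rw [h, pt_val]
  have h2 : (Finset.univ : Finset (ZMod 11)) = {0, 1, 2, 3, 4, 5, 6, 7, 8, 9, 10} := by decide
  rw [h2]
  rw [Finset.sum_insert (by decide), Finset.sum_insert (by decide), Finset.sum_insert (by decide),
    Finset.sum_insert (by decide), Finset.sum_insert (by decide), Finset.sum_insert (by decide),
    Finset.sum_insert (by decide), Finset.sum_insert (by decide), Finset.sum_insert (by decide),
    Finset.sum_insert (by decide), Finset.sum_singleton]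
  have v0 : (0 : ZMod 11).val = 0 := by decide
  have v1 : (1 : ZMod 11).val = 1 := by decide
  have v3 : (3 : ZMod 11).val = 3 := by decide
  have v4 : (4 : ZMod 11).val = 4 := by decide
  have v5 : (5 : ZMod 11).val = 5 := by decide
  have v9 : (9 : ZMod 11).val = 9 := by decide
  rw [if_pos (by decide), if_pos (by decide), if_neg (by decide), if_pos (by decide),
    if_pos (by decide), if_pos (by decide), if_neg (by decide), if_neg (by decide),
    if_neg (by decide), if_pos (by decide), if_neg (by decide), v0, v1, v3, v4, v5, v9]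
  simp only [one_nsmul, zero_nsmul, zero_add, add_zero, Multiset.singleton_add, Nat.cast_zero,
    Nat.cast_one, Nat.cast_ofNat, zero_div]
  rfl

/-- the exponents `1/4 + (0 and the squares modulo 11)/11` -/
noncomputable def s11 : Multiset QZ := (mset (vp 11 11)).map fun y => ((1 / 4 : ℚ) : QZ) + y

lemma rep11 : CongRep 220 1 s11 := by
  have : Fact (Nat.Prime 11) := ⟨by norm_num⟩
  have h1 := congRep_infl (show 4 ∣ 220 by norm_num) rep_four
  have h2 := congRep_infl (show 11 ∣ 220 by norm_num) (rep_vp 11 (by norm_num))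
  have h3 := congRep_tensor h1 h2
  have h4 : quadraticChar (ZMod 11) (-1) = -1 := by
    rw [quadraticChar_neg_one (by rw [ZMod.ringChar_zmod_n]; norm_num), ZMod.card]
    decide
  rw [h4, Multiset.singleton_bind] at h3
  norm_num at h3
  unfold s11
  simpa using h3

lemma rep5511 : CongRep 220 1 ((mset (vp 5 5)).bind fun x => s11.map fun y => x + y) := by
  have : Fact (Nat.Prime 5) := ⟨by norm_num⟩
  have h1 := congRep_infl (show 5 ∣ 220 by norm_num) (rep_vp 5 (by norm_num))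
  have h3 := congRep_tensor h1 rep11
  have h4 : quadraticChar (ZMod 5) (-1) = 1 := by
    rw [quadraticChar_neg_one (by rw [ZMod.ringChar_zmod_n]; norm_num), ZMod.card]
    decide
  rw [h4] at h3
  simpa using h3

lemma sum11 (x : ℚ) : ((s11.map fun y => (x : QZ) + y).map Pool.Agent.helper34.DH.ρ).sum =
    F (x + 1 / 4) + F (x + 1 / 4 + 1 / 11) +
          F (x + 1 / 4 + 3 / 11) + F (x + 1 / 4 + 4 / 11) + F (x + 1 / 4 + 5 / 11) +
          F (x + 1 / 4 + 9 / 11) := by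
  unfold s11
  rw [mset11]
  simp only [Multiset.map_cons, Multiset.map_singleton,
    Multiset.insert_eq_cons, ← AddCircle.coe_add, Multiset.sum_cons, Multiset.sum_singleton]
  change F (x + (1 / 4 + 0)) + (F (x + (1 / 4 + 1 / 11)) + (F (x + (1 / 4 + 3 / 11)) +
    (F (x + (1 / 4 + 4 / 11)) + (F (x + (1 / 4 + 5 / 11)) + F (x + (1 / 4 + 9 / 11)))))) = _
  rw [add_zero]
  simp only [← add_assoc]

lemma sum5511 : (((mset (vp 5 5)).bind fun x => s11.map fun y => x + y).map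
        Pool.Agent.helper34.DH.ρ).sum = (F (0 + 1 / 4) + F (0 + 1 / 4 + 1 / 11) +
          F (0 + 1 / 4 + 3 / 11) + F (0 + 1 / 4 + 4 / 11) + F (0 + 1 / 4 + 5 / 11) +
          F (0 + 1 / 4 + 9 / 11)) + (F (1 / 5 + 1 / 4) + F (1 / 5 + 1 / 4 + 1 / 11) +
          F (1 / 5 + 1 / 4 + 3 / 11) + F (1 / 5 + 1 / 4 + 4 / 11) + F (1 / 5 + 1 / 4 + 5 / 11) +
          F (1 / 5 + 1 / 4 + 9 / 11)) + (F (4 / 5 + 1 / 4) + F (4 / 5 + 1 / 4 + 1 / 11) +
          F (4 / 5 + 1 / 4 + 3 / 11) + F (4 / 5 + 1 / 4 + 4 / 11) + F (4 / 5 + 1 / 4 + 5 / 11) +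
          F (4 / 5 + 1 / 4 + 9 / 11)) := by
  rw [mset5, Multiset.insert_eq_cons, Multiset.insert_eq_cons, Multiset.cons_bind,
    Multiset.cons_bind, Multiset.singleton_bind, Multiset.map_add, Multiset.map_add,
    Multiset.sum_add, Multiset.sum_add, sum11, sum11, sum11]
  rw [← add_assoc]

/-- the ten points -/
def c5511 : Fin 10 → ZMod 55 := ![31, 16, 36, 1, 26, 12, 47, 37, 27, 42]

theorem cls5511 (h : RepMem) : LP.cls 55 (cnt c5511) ∈ MG' := by
  have h1 := h 220 _ (by norm_num) rep5511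
  have h2 := h 220 _ (by norm_num) rep11
  have h3 := sum11 0
  have h0 : (s11.map fun y => ((0 : ℚ) : QZ) + y) = s11 := by
    have : ((0 : ℚ) : QZ) = 0 := rfl
    simp only [this, zero_add, Multiset.map_id']
  rw [h0] at h3
  rw [h3] at h2
  rw [sum5511] at h1
  have h4 := MG'.sub_mem h1 h2
  have h5 : LP.cls 55 (cnt c5511) = F (31 / 55) + F (16 / 55) + F (36 / 55) + F (1 / 55) +
      F (26 / 55) + (F (12 / 55) + F (47 / 55) + F (37 / 55) + F (27 / 55) + F (42 / 55)) := by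
    have h6 : LP.cls 55 (cnt c5511) = ∑ i, cl 55 (c5511 i) := sum_cnt_smul c5511 (cl 55)
    have hc : ∀ n : ℕ, F ((n : ℚ) / (55 : ℕ)) = cl 55 (n : ZMod 55) := fun n =>
      F_nat 55 n (by norm_num)
    have h31 := hc 31
    have h16 := hc 16
    have h36 := hc 36
    have h1' := hc 1
    have h26 := hc 26
    have h12 := hc 12
    have h47 := hc 47
    have h37 := hc 37
    have h27 := hc 27
    have h42 := hc 42
    push_cast at h31 h16 h36 h1' h26 h12 h47 h37 h27 h42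
    rw [h6, h31, h16, h36, h1', h26, h12, h47, h37, h27, h42]
    simp only [Fin.sum_univ_succ, c5511]
    simp
    abel
  rw [h5, ← twelve]
  have e1 : ∀ y : ℚ, F (4 / 5 + 1 / 4 + y) = F (1 / 20 + y) := fun y =>
    F_congr ⟨1, by push_cast; ring⟩
  have e2 : F (4 / 5 + 1 / 4) = F (1 / 20) := F_congr ⟨1, by norm_num⟩
  have e3 : (1 / 5 + 1 / 4 : ℚ) = 9 / 20 := by norm_num
  rw [e1, e1, e1, e1, e1, e2, e3] at h4
  convert h4 using 1
  abel

/-- the obstruction class of level `55` -/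
theorem exo5511 (h : RepMem) (P : Multiset QZ → Prop) (hP : ∀ (m : ℕ) [NeZero m]
    (c : ZMod m → ℤ), TateF (anti c) → LP.cls m c ∈ MG' → LP.cls m c ∈ EP P) : ExoP P 55 34 := by
  have hT : TateF (anti (cnt c5511)) := XO_tateF 55 _ (by decide +kernel)
  exact ⟨cnt c5511, hT, by decide +kernel, hP 55 _ hT (cls5511 h)⟩

theorem fix5511 (h : RepMem) (P : Multiset QZ → Prop) (hP : ∀ (m : ℕ) [NeZero m]
    (c : ZMod m → ℤ), TateF (anti c) → LP.cls m c ∈ MG' → LP.cls m c ∈ EP P) : FixP P 55 := by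
  refine fixP_of_exo 55 5 11 (by norm_num) (by decide +kernel) ?_
    ⟨34, 34, by decide, by decide⟩ ?_ ?_ (by decide) (exo5511 h P hP)
  · rw [card_Gam 55 5 (by norm_num) (by norm_num), card_Gam 55 11 (by norm_num) (by norm_num)]
    decide +kernel
  · unfold Gam
    rw [dif_pos (by norm_num : 5 ∣ 55), MonoidHom.mem_ker]
    decide +kernel
  · unfold Gam
    rw [dif_pos (by norm_num : 11 ∣ 55), MonoidHom.mem_ker]
    decide +kernel

end Pool.Agent.helper88.MB
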